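import Pool.Agent.X31.U5

/-!
# Chowla's conjecture in progressions for the polynomials `g(T) ∏ (a i T + s i)`, for all tuples `s` of integers
# within `N ^ δ` of the values of bilinear functions at pairs of integers with missing digits,
# at most scales

`C₁ i`, `C₂ i` are sets of integers with `mⱼ i` digits in base `bⱼ i` whose digits are in arbitrary sets of allowed
digits with at least TWO elements (for instance: the integers with the decimal digits `0` and `1` only), `M i` is an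
arbitrary set with at least `#(C₁ i) #(C₂ i) / N ^ δ` pairs in `C₁ i × C₂ i`, `θ i` is a real number and `g i`, `h i` are
ARBITRARY real functions. The values considered are `θ x y + g(x) + h(y)`; for `θ = 1`, `g = h = 0` these are the
products of two integers with missing digits.
At most scales `N`, for every function `g` (e.g. every polynomial): for all but a proportion `N ^ (-δ)` of the tuples `q`
with `q i ∈ M i`, ALL tuples `s` of integers within `N ^ δ` of the values at the `q i` satisfy the bound of the problem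
with `ε N`, for all progressions with difference at most `A` and all the polynomials `g(T) ∏ i ∈ I, (a i T + s i)`,
`1 ≤ a i ≤ A`, `I ≠ ∅`.

The minimal real additive energy of these values is from `Pool.Agent.X31.M1` - `M3` (in this run); the theorem on
families of small energy at most scales (`Pool.Agent.TH823.PS.most_good`) is in the starting files.
From Mathlib: `ArithmeticFunction.cardFactors m`: the number of prime factors of `m` with multiplicity;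
`Finset.Icc u v`: the integers `n` with `u ≤ n ≤ v`; `v ≡ c [ZMOD m]`: congruence modulo `m`.
-/

set_option autoImplicit false

namespace Pool.Agent.Results.MP_d639b3_nt.BilinearTuples

open Finset

/-- the integers `0 ≤ n < b ^ m` whose digit at `b ^ j` in base `b` is in `𝒟 j`, for all `j < m` -/
def Digits (b : ℕ) (𝒟 : ℕ → Finset ℕ) (m : ℕ) : Finset ℕ :=
  (range (b ^ m)).filter (fun n => ∀ j < m, n / b ^ j % b ∈ 𝒟 j)

/-- the bilinear function `θ x y + g(x) + h(y)` -/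
def bil (θ : ℝ) (g h : ℕ → ℝ) (n : ℕ × ℕ) : ℝ := θ * ((n.1 : ℝ) * n.2) + g n.1 + h n.2

/-- `M` is a set of pairs in `Digits b₁ 𝒟₁ m₁ × Digits b₂ 𝒟₂ m₂` with at least `1 / N ^ δ` of all these pairs, where
all sets `𝒟ᵢ j` of allowed digits have at least two elements and `m₁ ≤ l m₂`, `m₂ ≤ l m₁`; the number `θ` is at most
`N ^ δ` and at least `N / (b₁ ^ m₁ b₂ ^ m₂ N ^ δ)` in absolute value; `g` and `h` are ARBITRARY functions with
`|bil θ g h| ≤ N` on `M`. -/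
def Fam (b₁ b₂ l N m₁ m₂ : ℕ) (δ : ℝ) (𝒟₁ 𝒟₂ : ℕ → Finset ℕ) (θ : ℝ) (g h : ℕ → ℝ) (M : Finset (ℕ × ℕ)) : Prop :=
  (∀ j, 𝒟₁ j ⊆ range b₁ ∧ 2 ≤ (𝒟₁ j).card) ∧ (∀ j, 𝒟₂ j ⊆ range b₂ ∧ 2 ≤ (𝒟₂ j).card) ∧
  m₁ ≤ l * m₂ ∧ m₂ ≤ l * m₁ ∧
  |θ| ≤ (N : ℝ) ^ δ ∧ (N : ℝ) / (N : ℝ) ^ δ ≤ |θ| * ((b₁ : ℝ) ^ m₁ * (b₂ : ℝ) ^ m₂) ∧
  M ⊆ Digits b₁ 𝒟₁ m₁ ×ˢ Digits b₂ 𝒟₂ m₂ ∧
  ((Digits b₁ 𝒟₁ m₁).card * (Digits b₂ 𝒟₂ m₂).card : ℝ) / (N : ℝ) ^ δ ≤ M.card ∧ ∀ n ∈ M, |bil θ g h n| ≤ N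

/-- The Liouville function on the integers: `λ(m) = (-1) ^ Ω(|m|)` for `m ≠ 0`, and `λ(0) = 0`. -/
def lam (m : ℤ) : ℤ := if m = 0 then 0 else (-1) ^ ArithmeticFunction.cardFactors m.natAbs

open Classical in
/-- The property `P` holds at most scales: the set of the positive integers `N` with the property `P` has upper
logarithmic density at least `1 - ε`. Precisely, for arbitrarily large `R` the sum of `1 / N` over the `N ≤ R`
without the property is at most `ε log R`. -/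
def MostScales (ε : ℝ) (P : ℕ → Prop) : Prop :=
  ∀ R₀ : ℕ, ∃ R : ℕ, R₀ ≤ R ∧ ∑ N ∈ (Icc 1 R).filter (fun N => ¬ P N), (1 : ℝ) / N ≤ ε * Real.log R

/-- The sum of `λ (F v)` over the `v` with `|v| ≤ x` and `v ≡ c` modulo `m` (`v` with `F v = 0` omitted). -/
noncomputable def progSum (F : ℤ → ℤ) (m : ℕ) (c : ℤ) (x : ℕ) : ℤ :=
  ∑ v ∈ (Icc (-(x : ℤ)) x).filter (fun v => v ≡ c [ZMOD m]), lam (F v)

/-- The tuple `s` is good for the function `g` at the scale `N`: for all the coefficients `1 ≤ a i ≤ A`, all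
progressions `c` modulo `m`, `1 ≤ m ≤ A`, all sets `I ≠ ∅` of indices and all `x ≤ N`, the sum of
`λ (g v * ∏ i ∈ I, (a i v + s i))` over the `v` in the progression with `|v| ≤ x` is at most `ε N` in absolute value. -/
def Good {r : ℕ} (A : ℕ) (ε : ℝ) (N : ℕ) (g : ℤ → ℤ) (s : Fin r → ℤ) : Prop :=
  ∀ a : Fin r → ℕ, (∀ i, 1 ≤ a i ∧ a i ≤ A) → ∀ m : ℕ, 1 ≤ m → m ≤ A → ∀ c : ℤ, ∀ I : Finset (Fin r), I.Nonempty →
    ∀ x : ℕ, x ≤ N → |(progSum (fun v => g v * ∏ i ∈ I, (a i * v + s i)) m c x : ℝ)| ≤ ε * N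

/-- At the scale `N`: for all numbers `m₁ i`, `m₂ i` of digits, ALL sets of allowed digits, all `θ i`, ALL functions
`g i`, `h i` and all sets `M i` of pairs with
`Fam (b₁ i) (b₂ i) (l i) N (m₁ i) (m₂ i) δ (𝒟₁ i) (𝒟₂ i) (θ i) (g i) (h i) (M i)`, and ALL functions (e.g. polynomials) `G : ℤ → ℤ`: for all the
tuples `q` with `q i ∈ M i` with at most `∏ #(M i) / N ^ δ` exceptions, ALL the tuples `s` of integers with
`|s i - bil (θ i) (g i) (h i) (q i)| ≤ N ^ δ` are good for `G`. -/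
def Tuples (A : ℕ) {r : ℕ} (b₁ b₂ l : Fin r → ℕ) (ε δ : ℝ) (N : ℕ) : Prop :=
  ∀ (m₁ m₂ : Fin r → ℕ) (𝒟₁ 𝒟₂ : Fin r → ℕ → Finset ℕ) (θ : Fin r → ℝ) (g h : Fin r → ℕ → ℝ)
    (M : Fin r → Finset (ℕ × ℕ)),
    (∀ i, Fam (b₁ i) (b₂ i) (l i) N (m₁ i) (m₂ i) δ (𝒟₁ i) (𝒟₂ i) (θ i) (g i) (h i) (M i)) →
    ∀ G : ℤ → ℤ,
      ∃ E : Finset (Fin r → (ℕ × ℕ)), (E.card : ℝ) ≤ (∏ i, ((M i).card : ℝ)) * (N : ℝ) ^ (-δ) ∧
        ∀ q : Fin r → (ℕ × ℕ), (∀ i, q i ∈ M i) → q ∉ E →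
          ∀ s : Fin r → ℤ, (∀ i, |(s i : ℝ) - bil (θ i) (g i) (h i) (q i)| ≤ (N : ℝ) ^ δ) → Good A ε N G s

lemma dat_of {b₁ b₂ l N m₁ m₂ : ℕ} {δ : ℝ} {𝒟₁ 𝒟₂ : ℕ → Finset ℕ} {θ : ℝ} {g h : ℕ → ℝ} {M : Finset (ℕ × ℕ)}
    (H : Fam b₁ b₂ l N m₁ m₂ δ 𝒟₁ 𝒟₂ θ g h M) :
    Pool.Agent.X31.CT.Dat2T b₁ b₂ l ((N : ℝ) ^ δ) N m₁ m₂ 𝒟₁ 𝒟₂ θ g h M :=
  ⟨H.1, H.2.1, H.2.2.1, H.2.2.2.1, H.2.2.2.2.1, H.2.2.2.2.2.1, H.2.2.2.2.2.2.1, H.2.2.2.2.2.2.2.1,
    H.2.2.2.2.2.2.2.2⟩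

lemma most_of {ε : ℝ} {P P' : ℕ → Prop} (h : Pool.Agent.TH823.PS.Most ε P) (hPP : ∀ N, P N → P' N) :
    MostScales ε P' := by
  classical
  have h' : MostScales ε P := h
  intro R₀
  obtain ⟨R, hR, h1⟩ := h' R₀
  refine ⟨R, hR, le_trans ?_ h1⟩
  apply sum_le_sum_of_subset_of_nonneg
  · intro N hN
    simp only [mem_filter] at hN ⊢
    exact ⟨hN.1, fun h2 => hN.2 (hPP N h2)⟩
  · intro _ _ _; positivity

lemma lam_mul (m n : ℤ) : lam (m * n) = lam m * lam n := by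
  unfold lam
  by_cases hm : m = 0
  · simp [hm]
  by_cases hn : n = 0
  · simp [hn]
  rw [if_neg (mul_ne_zero hm hn), if_neg hm, if_neg hn, Int.natAbs_mul,
    ArithmeticFunction.cardFactors_mul (Int.natAbs_ne_zero.2 hm) (Int.natAbs_ne_zero.2 hn), pow_add]

lemma lam_prod {r : ℕ} (g : Fin r → ℤ) (I : Finset (Fin r)) : lam (∏ i ∈ I, g i) = ∏ i ∈ I, lam (g i) := by
  classical
  induction I using Finset.induction_on with
  | empty => simp [lam]
  | insert i I hi ih => rw [prod_insert hi, prod_insert hi, lam_mul, ih]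

lemma lam_abs (m : ℤ) : |lam m| ≤ 1 := by
  unfold lam
  split_ifs
  · simp
  · rw [abs_pow]; simp

lemma lam_eq (m : ℤ) : (lam m : ℂ) = Pool.Agent.TH823.PS.evI Pool.Agent.H373R2.T7.liR m := by
  unfold lam Pool.Agent.TH823.PS.evI Pool.Agent.H373R2.T7.exI Pool.Agent.H373R2.T7.liR
  rcases lt_trichotomy m 0 with h | h | h
  · rw [if_neg h.ne, if_neg (by omega), if_pos (by omega), zero_add]
    have : m.natAbs = (-m).toNat := by omega
    rw [this]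
    push_cast
    rfl
  · subst h
    simp
  · rw [if_neg h.ne', if_pos (by omega), if_neg (by omega), add_zero]
    have : m.natAbs = m.toNat := by omega
    rw [this]
    push_cast
    rfl

/-- Let `b₁ i, b₂ i ≥ 2` and `l i ≥ 1` be integers (`i < r`). Let `A` be an integer and `ε > 0`.
There is a `δ > 0` such that at most scales `N`, that is on a set of `N` of upper logarithmic density at least `1 - ε`,
`Tuples A b₁ b₂ l ε δ N` holds: for all numbers `m₁ i`, `m₂ i` of digits, ALL sets of allowed digits, all `θ i`, ALL functions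
`g i`, `h i` and all sets `M i` of pairs with
`Fam (b₁ i) (b₂ i) (l i) N (m₁ i) (m₂ i) δ (𝒟₁ i) (𝒟₂ i) (θ i) (g i) (h i) (M i)`, and ALL functions `G : ℤ → ℤ`,
for all the tuples `q` with `q i ∈ M i` with at most `∏ #(M i) / N ^ δ` exceptions, ALL the tuples `s` of integers with
`|s i - bil (θ i) (g i) (h i) (q i)| ≤ N ^ δ` satisfy `|∑ λ (G v * ∏ i ∈ I, (a i v + s i))| ≤ ε N`, the sum over the `v ≡ c` modulo `m` with
`|v| ≤ x`, for all `1 ≤ a i ≤ A`, `m ≤ A`, `c`, `I ≠ ∅` and `x ≤ N`. -/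
theorem result (A r : ℕ) (b₁ b₂ l : Fin r → ℕ) (hb : ∀ i, 2 ≤ b₁ i ∧ 2 ≤ b₂ i ∧ 1 ≤ l i) (ε : ℝ) (hε : 0 < ε) :
    ∃ δ : ℝ, 0 < δ ∧ MostScales ε (Tuples A b₁ b₂ l ε δ) := by
  classical
  obtain ⟨E', HS⟩ : ∃ E' : Fin r → ℕ, ∀ i, Pool.Agent.X31.SchT (E' i) (Pool.Agent.X31.QBil (b₁ i) (b₂ i) (l i)) :=
    ⟨fun _ => 0, fun i => Pool.Agent.X31.SchT_bil (hb i).1 (hb i).2.1 (l i) (hb i).2.2⟩
  obtain ⟨e⟩ : Nonempty (Fin (Fintype.card {t : ((Fin r → Fin A) × (Fin A × Fin A)) × Finset (Fin r) // t.2.Nonempty}) ≃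
      {t : ((Fin r → Fin A) × (Fin A × Fin A)) × Finset (Fin r) // t.2.Nonempty}) := ⟨(Fintype.equivFin _).symm⟩
  obtain ⟨δ, hδ, H⟩ := Pool.Agent.X31.SchT.most_two HS (fun _ => (0, 0)) Pool.Agent.TH823.PS.nice_liR (A + 1)
    (Fintype.card {t : ((Fin r → Fin A) × (Fin A × Fin A)) × Finset (Fin r) // t.2.Nonempty}) (by omega) hε
  refine ⟨δ, hδ, most_of (H 1) fun N h => ?_⟩
  obtain ⟨hN1, H1⟩ := h
  intro m₁ m₂ 𝒟₁ 𝒟₂ θ g h M hfam G
  obtain ⟨i₀, hi₀⟩ : ∃ i₀ : (Fin (Fintype.card {t : ((Fin r → Fin A) × (Fin A × Fin A)) × Finset (Fin r) // t.2.Nonempty})) → Fin r,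
      ∀ l, i₀ l ∈ (e l).1.2 := ⟨fun l => (e l).2.choose, fun l => (e l).2.choose_spec⟩
  obtain ⟨α, hα⟩ : ∃ α : (Fin (Fintype.card {t : ((Fin r → Fin A) × (Fin A × Fin A)) × Finset (Fin r) // t.2.Nonempty})) → Fin r → ℕ,
      α = fun l i => ((e l).1.1.1 i : ℕ) + 1 := ⟨_, rfl⟩
  obtain ⟨E, hE1, hE2⟩ := H1 M (fun i n => bil (θ i) (g i) (h i) n) (fun i => ⟨m₁ i, m₂ i, 𝒟₁ i, 𝒟₂ i, θ i, g i, h i, dat_of (hfam i), fun _ => rfl⟩)
    (fun l => α l (i₀ l)) (fun l => by rw [hα]; simp) (fun l => by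
      rw [hα]
      have := ((e l).1.1.1 (i₀ l)).2
      simp only
      omega) i₀
    (fun l s v => (if v ≡ (((e l).1.1.2.1 : ℕ) : ℤ) [ZMOD (((e l).1.1.2.2 : ℕ) + 1 : ℕ)] then (lam (G v) : ℂ) else 0) *
      (∏ i ∈ (e l).1.2.erase (i₀ l), (lam (α l i * v + s i) : ℂ))) (by
      intro l s v
      have hl1 : ∀ k : ℤ, ‖(lam k : ℂ)‖ ≤ 1 := fun k => by
        rw [Complex.norm_intCast]
        exact_mod_cast lam_abs k
      rw [norm_mul, norm_prod]
      refine mul_le_one₀ ?_ (prod_nonneg fun _ _ => norm_nonneg _)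
        (prod_le_one (fun _ _ => norm_nonneg _) fun i _ => hl1 _)
      split_ifs
      · exact hl1 _
      · simp) (by
      intro l s s' v hss
      have e1 : ∏ i ∈ (e l).1.2.erase (i₀ l), (lam (α l i * v + s i) : ℂ) =
          ∏ i ∈ (e l).1.2.erase (i₀ l), (lam (α l i * v + s' i) : ℂ) :=
        prod_congr rfl fun i hi => by rw [hss i (mem_erase.1 hi).1]
      rw [e1])
  refine ⟨E, hE1, fun q hq hqE s hs a ha mm hm1 hmA c I hI x hx => ?_⟩
  have hmz : ((mm : ℕ) : ℤ) ≠ 0 := by omega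
  have hc0 : 0 ≤ c % (mm : ℤ) := Int.emod_nonneg _ hmz
  have hc1 : c % (mm : ℤ) < mm := Int.emod_lt_of_pos _ (by omega)
  obtain ⟨l, hl⟩ : ∃ l, e l = ⟨((fun i => ⟨a i - 1, by have := ha i; omega⟩,
    (⟨(c % (mm : ℤ)).toNat, by omega⟩, ⟨mm - 1, by omega⟩)), I), hI⟩ := e.surjective _
  have h1 := hE2 q hq hqE s hs l x hx
  have hi := hi₀ l
  have ea : ∀ i, α l i = a i := by
    intro i
    rw [hα]
    simp only
    rw [hl]
    have := ha i
    simp only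
    omega
  simp only [ea] at h1
  rw [hl] at h1 hi
  simp only at h1 hi
  have em : mm - 1 + 1 = mm := by omega
  rw [em, Int.toNat_of_nonneg hc0] at h1
  rw [← Complex.norm_intCast]
  refine le_trans (le_of_eq ?_) h1
  congr 1
  unfold progSum
  rw [sum_filter]
  push_cast
  apply sum_congr rfl
  intro v _
  have hc : (v ≡ c % (mm : ℤ) [ZMOD mm]) ↔ (v ≡ c [ZMOD mm]) := by
    unfold Int.ModEq
    rw [Int.emod_emod_of_dvd _ (dvd_refl _)]
  by_cases hn : v ≡ c [ZMOD mm]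
  · rw [if_pos hn, if_pos (hc.2 hn), lam_mul, lam_prod, ← mul_prod_erase I _ hi, ← lam_eq]
    push_cast
    ring
  · rw [if_neg hn, if_neg (fun h3 => hn (hc.1 h3)), zero_mul, zero_mul]

end Pool.Agent.Results.MP_d639b3_nt.BilinearTuples
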