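import Pool.Agent.TH872.Sq.W18
import Pool.Agent.TH872.Sq.W19

/-!
# Chowla's conjecture in every progression and every segment, for almost all constant terms, with restricted digits

`f = ∏ (κ_j x² + β_j x + c_j)`, `j < r`, with fixed `κ_j`, `β_j`; the constant terms `c_j` vary over all integers of a
given sign and of absolute value up to `X_j`, `X_j` of the order of `(b ^ k) ^ deg`. The argument `v` runs through the
integers whose absolute value is below `b ^ k` and has its `i`-th digit in base `b` in `D i` for all `i < k`, where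
`D 0, …, D (k - 1)` are arbitrary sets of at least two digits each (so all integers `|v| < b ^ k` are included). For
almost all vectors of constant terms the sum of `G(v) λ(f(v))` over the `v` of ANY arithmetic progression of modulus at
most `k ^ A` and of ANY segment `|v| < Y` is at most `#S / k ^ U`; `G` is an arbitrary bounded function.

The theorem rests on `main_ev` and `uniformize` of the development `Pool.Agent.TH872.Sq` of the starting library.
-/

set_option autoImplicit false

namespace Pool.Agent.Results.MP_d639b3_nt.EveryProgression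
open Finset
open Pool.Agent.TH872.Sq (qv dg ld SD main_ev ev liF nice_liF ev_li_prod uniformize SD_card_pos P_wD P_le dig_wD)

/-- the integers below `b ^ k` whose `i`-th digit in base `b` belongs to `D i` for all `i < k` -/
def S (b : ℕ) (D : ℕ → Finset ℕ) (k : ℕ) : Finset ℕ := (range (b ^ k)).filter (fun n : ℕ => ∀ i < k, n / b ^ i % b ∈ D i)

/-- the Liouville function on the integers -/
noncomputable def lam (m : ℤ) : ℝ := if m = 0 then 0 else (-1) ^ ArithmeticFunction.cardFactors m.natAbs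

/-- the polynomial `∏ (κ j x ^ 2 + β j x + c j)` -/
noncomputable def pol {r : ℕ} (κ β c : Fin r → ℤ) : Polynomial ℤ :=
  ∏ j, (Polynomial.C (κ j) * Polynomial.X ^ 2 + Polynomial.C (β j) * Polynomial.X + Polynomial.C (c j))

/-- the degree of `κ x ^ 2 + β x` -/
def deg (κ : ℤ) : ℕ := if κ = 0 then 1 else 2

/-- the integers `v` of the progression `m + N ℤ` with `|v| < Y` and `|v|` in `S` -/
noncomputable def arguments (b : ℕ) (D : ℕ → Finset ℕ) (k Y N : ℕ) (m : ℤ) : Finset ℤ :=
  (Ioo (-(Y : ℤ)) Y).filter (fun v : ℤ => v.natAbs ∈ S b D k ∧ v ≡ m [ZMOD N])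

lemma lam_eval {r : ℕ} (κ β c : Fin r → ℤ) (x : ℤ) :
    lam ((pol κ β c).eval x) = ∏ j, ev liF (κ j * x ^ 2 + β j * x + c j) := by
  rw [← ev_li_prod]
  unfold pol
  rw [Polynomial.eval_prod]
  simp only [Polynomial.eval_add, Polynomial.eval_mul, Polynomial.eval_pow, Polynomial.eval_C, Polynomial.eval_X]
  rfl

lemma lam_le (m : ℤ) : |lam m| ≤ 1 := by
  unfold lam
  split_ifs with h
  · simp
  · rw [abs_pow, abs_neg, abs_one, one_pow]

lemma two_pow_le (b : ℕ) (hb : 2 ≤ b) (D : ℕ → Finset ℕ) (k : ℕ) (hD : ∀ i < k, D i ⊆ range b ∧ 2 ≤ (D i).card) :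
    (2 : ℝ) ^ k ≤ ((S b D k).card : ℝ) := by
  have hS : (0 : ℝ) < ((SD b D k).card : ℝ) := SD_card_pos b hb D k hD
  have hS' : 0 < (SD b D k).card := by exact_mod_cast hS
  obtain ⟨n, hn⟩ := card_pos.1 hS'
  have hn' : n ∈ range (b ^ k) := by
    unfold SD at hn
    exact (mem_filter.1 hn).1
  have h1 := P_wD b hb D k hD n hn'
  rw [if_pos hn] at h1
  have h2 := P_le (dig_wD b hb D k hD) 0 k n
  rw [h1] at h2
  have h3 : (1 - 1 / 2 : ℝ) ^ k = 1 / (2 : ℝ) ^ k := by
    rw [show (1 - 1 / 2 : ℝ) = 1 / 2 by norm_num, div_pow, one_pow]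
  rw [h3] at h2
  exact (one_div_le_one_div hS (by positivity)).1 h2

/-- one sign -/
lemma one_sign (b : ℕ) (hb : 2 ≤ b) (r : ℕ) (hr : 1 ≤ r) (κ β : Fin r → ℤ) (hκ : ∀ j, κ j ≠ 0 ∨ β j ≠ 0) (F A U : ℕ)
    (s : ℤ) (hs : s = 1 ∨ s = -1) :
    ∃ K₀ : ℕ, ∀ k : ℕ, K₀ ≤ k → ∀ D : ℕ → Finset ℕ, (∀ i < k, D i ⊆ range b ∧ 2 ≤ (D i).card) →
    ∀ σ : Fin r → ℤ, (∀ j, σ j = 1 ∨ σ j = -1) →
    ∀ X : Fin r → ℕ, (∀ j, b ^ (deg (κ j) * k) ≤ X j ∧ X j ≤ F * b ^ (deg (κ j) * k)) →
    ∀ G : ℤ → ℝ, (∀ v, |G v| ≤ 1) → ∀ Q : (Fin r → ℕ) → Prop, [DecidablePred Q] →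
    (∀ a, Q a → ∃ Y q t : ℕ, Y ≤ b ^ k ∧ 1 ≤ q ∧ q ≤ k ^ A ∧ ((S b D k).card : ℝ) / (k : ℝ) ^ U <
      |∑ n ∈ (S b D k).filter (fun n => n < Y ∧ n % q = t), G (s * n) * lam ((pol κ β (fun j => σ j * (a j : ℤ))).eval (s * (n : ℤ)))|) →
    (((Fintype.piFinset (fun j : Fin r => Icc 1 (X j))).filter Q).card : ℝ) ≤ (∏ j, (X j : ℝ)) / (k : ℝ) ^ U := by
  classical
  obtain ⟨W, K1, h1⟩ := uniformize b hb A U
  have hκ' : ∀ j, κ j ≠ 0 ∨ s * β j ≠ 0 := by
    intro j
    rcases hκ j with h | h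
    · exact Or.inl h
    · right
      rcases hs with hs | hs <;> rw [hs] <;> simpa using h
  have hld : ∀ j, ld (κ j) (s * β j) ≠ 0 := by
    intro j
    unfold ld
    split_ifs with h
    · exact (hκ' j).resolve_left (fun h' => h' h)
    · exact h
  obtain ⟨K2, h2⟩ := main_ev b hb r hr κ (fun j => s * β j) hld (fun _ => liF) (fun _ => nice_liF) F W
  refine ⟨K1 + K2, fun k hk D hD σ hσ X hX G hG Q _ hQ => ?_⟩
  have hss : s ^ 2 = 1 := by rcases hs with hs | hs <;> rw [hs] <;> norm_num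
  have hval : ∀ (a : Fin r → ℕ) (n : ℕ), lam ((pol κ β (fun j => σ j * (a j : ℤ))).eval (s * (n : ℤ))) =
      ∏ j, ev liF (qv (κ j) (s * β j) n + σ j * (a j : ℤ)) := by
    intro a n
    rw [lam_eval]
    apply prod_congr rfl
    intro j _
    congr 1
    unfold qv
    rw [mul_pow, hss]
    ring
  have h3 := h1 k (by omega) D hD (Fin r → ℕ) (Fintype.piFinset (fun j : Fin r => Icc 1 (X j)))
    (fun a n => G (s * n) * lam ((pol κ β (fun j => σ j * (a j : ℤ))).eval (s * (n : ℤ)))) (fun a n => by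
      rw [abs_mul]
      exact mul_le_one₀ (hG _) (abs_nonneg _) (lam_le _)) (∏ j, (X j : ℝ)) (by positivity) (fun G' hG' => by
      have h4 := h2 k (by omega) D hD σ hσ X hX (fun n => G' n * G (s * n)) (fun n => by
        rw [abs_mul]
        exact mul_le_one₀ (hG' _) (abs_nonneg _) (hG _))
      refine le_trans (le_of_eq ?_) h4
      apply sum_congr rfl
      intro a _
      congr 2
      apply sum_congr rfl
      intro n _
      rw [hval]
      ring) Q
  apply h3
  intro a _ ha
  exact hQ a ha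

/-- **Chowla's conjecture in every progression and every segment, for almost all constant terms.** -/
theorem result (b : ℕ) (hb : 2 ≤ b) (r : ℕ) (hr : 1 ≤ r) (κ β : Fin r → ℤ) (hκ : ∀ j, κ j ≠ 0 ∨ β j ≠ 0) (F A U : ℕ) :
    ∃ K₀ : ℕ, ∀ k : ℕ, K₀ ≤ k → ∀ D : ℕ → Finset ℕ, (∀ i < k, D i ⊆ range b ∧ 2 ≤ (D i).card) →
    ∀ σ : Fin r → ℤ, (∀ j, σ j = 1 ∨ σ j = -1) →
    ∀ X : Fin r → ℕ, (∀ j, b ^ (deg (κ j) * k) ≤ X j ∧ X j ≤ F * b ^ (deg (κ j) * k)) →
    ∀ G : ℤ → ℝ, (∀ v, |G v| ≤ 1) →
    ∃ Bad : Finset (Fin r → ℕ), (Bad.card : ℝ) ≤ (∏ j, (X j : ℝ)) / (k : ℝ) ^ U ∧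
      ∀ a ∈ Fintype.piFinset (fun j : Fin r => Icc 1 (X j)), a ∉ Bad →
      ∀ Y N : ℕ, Y ≤ b ^ k → 1 ≤ N → N ≤ k ^ A → ∀ m : ℤ,
        |∑ v ∈ arguments b D k Y N m, G v * lam ((pol κ β (fun j => σ j * (a j : ℤ))).eval v)| ≤
          ((S b D k).card : ℝ) / (k : ℝ) ^ U := by
  classical
  obtain ⟨K1, h1⟩ := one_sign b hb r hr κ β hκ F A (U + 2) 1 (Or.inl rfl)
  obtain ⟨K2, h2⟩ := one_sign b hb r hr κ β hκ F A (U + 2) (-1) (Or.inr rfl)
  obtain ⟨K3, h3⟩ : ∃ K3 : ℕ, ∀ k : ℕ, K3 ≤ k → (k : ℝ) ^ (U + 2) ≤ (2 : ℝ) ^ k := by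
    have := ((isLittleO_pow_const_const_pow_of_one_lt (R := ℝ) (U + 2) (by norm_num : (1 : ℝ) < 2)).bound
      (by norm_num : (0 : ℝ) < 1))
    rw [Filter.eventually_atTop] at this
    obtain ⟨K3, h⟩ := this
    refine ⟨K3, fun k hk => ?_⟩
    have := h k hk
    rw [one_mul, Real.norm_of_nonneg (by positivity), Real.norm_of_nonneg (by positivity)] at this
    exact this
  refine ⟨K1 + K2 + K3 + 2, fun k hk D hD σ hσ X hX G hG => ?_⟩
  have hk2 : (2 : ℝ) ≤ k := by exact_mod_cast (by omega : 2 ≤ k)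
  have hk0 : (0 : ℝ) < k := by linarith
  have hS := SD_card_pos b hb D k hD
  set P1 : (Fin r → ℕ) → Prop := fun a => ∃ Y q t : ℕ, Y ≤ b ^ k ∧ 1 ≤ q ∧ q ≤ k ^ A ∧
    ((S b D k).card : ℝ) / (k : ℝ) ^ (U + 2) < |∑ n ∈ (S b D k).filter (fun n => n < Y ∧ n % q = t),
      G (1 * n) * lam ((pol κ β (fun j => σ j * (a j : ℤ))).eval (1 * (n : ℤ)))| with hP1
  set P2 : (Fin r → ℕ) → Prop := fun a => ∃ Y q t : ℕ, Y ≤ b ^ k ∧ 1 ≤ q ∧ q ≤ k ^ A ∧
    ((S b D k).card : ℝ) / (k : ℝ) ^ (U + 2) < |∑ n ∈ (S b D k).filter (fun n => n < Y ∧ n % q = t),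
      G (-1 * n) * lam ((pol κ β (fun j => σ j * (a j : ℤ))).eval (-1 * (n : ℤ)))| with hP2
  have c1 := h1 k (by omega) D hD σ hσ X hX G hG P1 (fun a ha => ha)
  have c2 := h2 k (by omega) D hD σ hσ X hX G hG P2 (fun a ha => ha)
  refine ⟨(Fintype.piFinset (fun j : Fin r => Icc 1 (X j))).filter P1 ∪
    (Fintype.piFinset (fun j : Fin r => Icc 1 (X j))).filter P2, ?_, ?_⟩
  · have hX0 : 0 ≤ ∏ j, (X j : ℝ) := by positivity
    calc (((Fintype.piFinset (fun j : Fin r => Icc 1 (X j))).filter P1 ∪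
        (Fintype.piFinset (fun j : Fin r => Icc 1 (X j))).filter P2).card : ℝ)
        ≤ (((Fintype.piFinset (fun j : Fin r => Icc 1 (X j))).filter P1).card : ℝ) +
          (((Fintype.piFinset (fun j : Fin r => Icc 1 (X j))).filter P2).card : ℝ) := by
          exact_mod_cast card_union_le _ _
      _ ≤ (∏ j, (X j : ℝ)) / (k : ℝ) ^ (U + 2) + (∏ j, (X j : ℝ)) / (k : ℝ) ^ (U + 2) := add_le_add c1 c2
      _ = (∏ j, (X j : ℝ)) / (k : ℝ) ^ U * (2 / (k : ℝ) ^ 2) := by
          rw [pow_add]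
          field_simp
          ring
      _ ≤ (∏ j, (X j : ℝ)) / (k : ℝ) ^ U * 1 := by
          apply mul_le_mul_of_nonneg_left _ (by positivity)
          rw [div_le_one (by positivity)]
          nlinarith
      _ = _ := mul_one _
  · intro a ha hnot Y N hY hN hNA m
    rw [mem_union, mem_filter, mem_filter, not_or, not_and, not_and] at hnot
    have n1 : ¬ P1 a := hnot.1 ha
    have n2 : ¬ P2 a := hnot.2 ha
    rw [hP1] at n1
    rw [hP2] at n2
    push Not at n1 n2
    set f : ℤ → ℝ := fun v => G v * lam ((pol κ β (fun j => σ j * (a j : ℤ))).eval v) with hf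
    have hfle : ∀ v, |f v| ≤ 1 := by
      intro v
      rw [hf]
      simp only
      rw [abs_mul]
      exact mul_le_one₀ (hG _) (abs_nonneg _) (lam_le _)
    have hNz : (0 : ℤ) < N := by exact_mod_cast hN
    have e1 := n1 Y N (m % N).toNat hY hN hNA
    have e2 := n2 Y N ((-m) % N).toNat hY hN hNA
    -- the sum over the nonnegative `v`
    have s1 : ∑ v ∈ (arguments b D k Y N m).filter (fun v => 0 ≤ v), f v =
        ∑ n ∈ (S b D k).filter (fun n => n < Y ∧ n % N = (m % N).toNat), f (1 * n) := by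
      symm
      apply sum_bij (fun (n : ℕ) _ => (n : ℤ))
      · intro n hn
        rw [mem_filter] at hn
        rw [mem_filter]
        unfold arguments
        rw [mem_filter, mem_Ioo]
        refine ⟨⟨⟨by omega, by exact_mod_cast hn.2.1⟩, by simpa using hn.1, ?_⟩, by positivity⟩
        have h5 : (n : ℤ) % N = m % N := by
          have h6 : ((n % N : ℕ) : ℤ) = ((m % N).toNat : ℤ) := by rw [hn.2.2]
          rw [Int.toNat_of_nonneg (Int.emod_nonneg _ hNz.ne')] at h6
          rw [← h6]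
          push_cast
          rfl
        exact h5
      · intro n _ n' _ h
        exact_mod_cast h
      · intro v hv
        rw [mem_filter] at hv
        obtain ⟨hv1, hv0⟩ := hv
        unfold arguments at hv1
        rw [mem_filter, mem_Ioo] at hv1
        refine ⟨v.toNat, ?_, Int.toNat_of_nonneg hv0⟩
        rw [mem_filter]
        have h7 : v.toNat = v.natAbs := by omega
        refine ⟨by rw [h7]; exact hv1.2.1, by omega, ?_⟩
        have h8 : v % N = m % N := hv1.2.2
        have h9 : ((v.toNat % N : ℕ) : ℤ) = m % N := by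
          push_cast
          rw [Int.toNat_of_nonneg hv0]
          exact h8
        omega
      · intro n _
        rw [one_mul]
    -- the sum over the nonpositive `v`
    have s2 : ∑ v ∈ (arguments b D k Y N m).filter (fun v => v ≤ 0), f v =
        ∑ n ∈ (S b D k).filter (fun n => n < Y ∧ n % N = ((-m) % N).toNat), f (-1 * n) := by
      symm
      apply sum_bij (fun (n : ℕ) _ => -(n : ℤ))
      · intro n hn
        rw [mem_filter] at hn
        rw [mem_filter]
        unfold arguments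
        rw [mem_filter, mem_Ioo]
        refine ⟨⟨⟨by omega, by omega⟩, by simpa using hn.1, ?_⟩, by omega⟩
        have h5 : (n : ℤ) % N = (-m) % N := by
          have h6 : ((n % N : ℕ) : ℤ) = (((-m) % N).toNat : ℤ) := by rw [hn.2.2]
          rw [Int.toNat_of_nonneg (Int.emod_nonneg _ hNz.ne')] at h6
          rw [← h6]
          push_cast
          rfl
        have h6 : (n : ℤ) ≡ -m [ZMOD N] := h5
        have := h6.neg
        rwa [neg_neg] at this
      · intro n _ n' _ h
        have := neg_inj.1 h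
        exact_mod_cast this
      · intro v hv
        rw [mem_filter] at hv
        obtain ⟨hv1, hv0⟩ := hv
        unfold arguments at hv1
        rw [mem_filter, mem_Ioo] at hv1
        refine ⟨v.natAbs, ?_, by omega⟩
        rw [mem_filter]
        refine ⟨hv1.2.1, by omega, ?_⟩
        have h8 : v ≡ m [ZMOD N] := hv1.2.2
        have h8' : -v ≡ -m [ZMOD N] := h8.neg
        have h9 : ((v.natAbs % N : ℕ) : ℤ) = (-m) % N := by
          push_cast
          rw [show |v| = -v from abs_of_nonpos hv0]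
          exact h8'
        omega
      · intro n _
        rw [neg_one_mul]
    have s3 : |∑ v ∈ arguments b D k Y N m, f v| ≤
        |∑ v ∈ (arguments b D k Y N m).filter (fun v => 0 ≤ v), f v| +
        |∑ v ∈ (arguments b D k Y N m).filter (fun v => v ≤ 0), f v| + 1 := by
      have t1 := sum_filter_add_sum_filter_not (arguments b D k Y N m) (fun v : ℤ => 0 ≤ v) f
      have t2 : ∑ v ∈ (arguments b D k Y N m).filter (fun v => v ≤ 0), f v =
          ∑ v ∈ (arguments b D k Y N m).filter (fun v => ¬ 0 ≤ v), f v +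
          ∑ v ∈ (arguments b D k Y N m).filter (fun v => v = 0), f v := by
        rw [← sum_union]
        · apply sum_congr _ (fun _ _ => rfl)
          ext v
          simp only [mem_filter, mem_union]
          constructor
          · rintro ⟨h5, h6⟩
            rcases lt_or_eq_of_le h6 with h7 | h7
            · exact Or.inl ⟨h5, by omega⟩
            · exact Or.inr ⟨h5, h7⟩
          · rintro (⟨h5, h6⟩ | ⟨h5, h6⟩)
            · exact ⟨h5, by omega⟩
            · exact ⟨h5, by omega⟩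
        · rw [disjoint_filter]
          intro v _ h5 h6
          omega
      have t3 : |∑ v ∈ (arguments b D k Y N m).filter (fun v => v = 0), f v| ≤ 1 := by
        refine (abs_sum_le_sum_abs _ _).trans ?_
        calc ∑ v ∈ (arguments b D k Y N m).filter (fun v => v = 0), |f v|
            ≤ ∑ v ∈ ({0} : Finset ℤ), |f v| := by
              apply sum_le_sum_of_subset_of_nonneg
              · intro v hv
                rw [mem_filter] at hv
                rw [mem_singleton]
                exact hv.2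
              · intro v _ _
                exact abs_nonneg _
          _ ≤ 1 := by rw [sum_singleton]; exact hfle 0
      rw [← t1]
      have t4 : ∑ v ∈ (arguments b D k Y N m).filter (fun v => ¬ 0 ≤ v), f v =
          ∑ v ∈ (arguments b D k Y N m).filter (fun v => v ≤ 0), f v -
          ∑ v ∈ (arguments b D k Y N m).filter (fun v => v = 0), f v := by linarith
      rw [t4]
      have t5 := abs_add_le (∑ v ∈ (arguments b D k Y N m).filter (fun v => 0 ≤ v), f v)
        (∑ v ∈ (arguments b D k Y N m).filter (fun v => v ≤ 0), f v -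
          ∑ v ∈ (arguments b D k Y N m).filter (fun v => v = 0), f v)
      have t6 := abs_sub (∑ v ∈ (arguments b D k Y N m).filter (fun v => v ≤ 0), f v)
        (∑ v ∈ (arguments b D k Y N m).filter (fun v => v = 0), f v)
      linarith
    rw [s1, s2] at s3
    refine s3.trans ?_
    have hScard : (2 : ℝ) ^ k ≤ ((S b D k).card : ℝ) := two_pow_le b hb D k hD
    have h10 : 1 ≤ ((S b D k).card : ℝ) / (k : ℝ) ^ (U + 2) := by
      rw [le_div_iff₀ (by positivity), one_mul]
      exact (h3 k (by omega)).trans hScard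
    have h11 : ((S b D k).card : ℝ) / (k : ℝ) ^ (U + 2) * 4 ≤ ((S b D k).card : ℝ) / (k : ℝ) ^ U := by
      rw [pow_add]
      have : ((S b D k).card : ℝ) / ((k : ℝ) ^ U * (k : ℝ) ^ 2) * 4 = ((S b D k).card : ℝ) / (k : ℝ) ^ U * (4 / (k : ℝ) ^ 2) := by
        field_simp
      rw [this]
      calc ((S b D k).card : ℝ) / (k : ℝ) ^ U * (4 / (k : ℝ) ^ 2) ≤ ((S b D k).card : ℝ) / (k : ℝ) ^ U * 1 := by
            apply mul_le_mul_of_nonneg_left _ (by positivity)
            rw [div_le_one (by positivity)]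
            nlinarith
        _ = _ := mul_one _
    have e1' : |∑ n ∈ (S b D k).filter (fun n => n < Y ∧ n % N = (m % N).toNat), f (1 * n)| ≤
        ((S b D k).card : ℝ) / (k : ℝ) ^ (U + 2) := e1
    have e2' : |∑ n ∈ (S b D k).filter (fun n => n < Y ∧ n % N = ((-m) % N).toNat), f (-1 * n)| ≤
        ((S b D k).card : ℝ) / (k : ℝ) ^ (U + 2) := e2
    linarith

end Pool.Agent.Results.MP_d639b3_nt.EveryProgression
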